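import Pool.Agent.H440Z.Sat

/-!
# A dp-minimal theory with a formula that does not fork over a model `M` and belongs to no global
`M`-definable type
-/

set_option autoImplicit false

namespace Pool.Agent.Results.MP_510d92_lc.ANonForkingNotDefinable

open FirstOrder FirstOrder.Language Pool.Agent.H440Z.MT Cardinal

universe u

theorem result :
    ∃ (L : FirstOrder.Language.{0, 0}) (M : Type) (_ : L.Structure M) (_ : Nonempty M)
      (_ : Countable M), DpMinimal.{u} L M ∧
      (∃ (U : Type u) (_ : L.Structure U) (_ : M ↪ₑ[L] U), Saturated L ℵ₁ U) ∧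
      ∃ (n m : ℕ) (φ : L.Formula (Fin n ⊕ Fin m)),
        ∀ (U : Type u) [L.Structure U] (f : M ↪ₑ[L] U), Saturated L ℵ₁ U →
          ∃ b : Fin m → U, ¬ Forks (Set.range f) φ b ∧
            ¬ ∃ p : TypeOver L U n, DefinableOver (Set.range f) p ∧ InType (inst φ b) p :=
  Pool.Agent.H440Z.main3

end Pool.Agent.Results.MP_510d92_lc.ANonForkingNotDefinable
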